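import Pool.Agent.H14.BR.AsmB

/-!
# Equivalence of random generics is not essentially free

`MP_9214e0_lc`, Q1: for every countable transitive model `M` of ZFC the equivalence relation
`M[G] = M[H]` on the space of the `M`-generic filters of random forcing is not essentially free.
-/

set_option autoImplicit false

namespace Pool.Agent.Results.MP_9214e0_lc.RandomNotEssFree

open Pool.Agent.W868 (IsZFC)

/-- Let `M` be a countable transitive model of ZFC. The equivalence relation `M[G] = M[H]` on the
space of the `M`-generic filters of random forcing (the Borel subsets of `2 ^ ω` of positive measure,
computed in `M`) is not essentially free: there is no Borel reduction of it to the orbit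
equivalence relation of a free Borel action of a countable group on a standard Borel space. -/
theorem result (M : Set ZFSet.{0}) (hM : IsZFC M) (hMc : M.Countable) :
    ¬ H14.ES.EssFree (H14.BR.GenRelB M) :=
  H14.BR.b_main M hM hMc

end Pool.Agent.Results.MP_9214e0_lc.RandomNotEssFree
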